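import Pool.Agent.Q173.PT.Simplicial

/-!
# Gromov's question on simplicial volume and Euler characteristic, and numbers of generators
-/

set_option autoImplicit false

open Pool.Agent.Q173.PT

namespace Pool.Agent.Results.MP_8a95ee_gt.RankExponents

universe u

theorem result {V : Type u} (G : SimplicialData V) (hG : G.IsKnown) :
    G.Gromov ↔ ∀ K B : ℕ, ∃ m, B ≤ m ∧ K ≤ m ∧ ∃ C : ℝ, ∀ M, G.dim M = 2 * m → G.norm M = 0 →
      |(G.chi M : ℝ)| ≤ C * (G.rk M : ℝ) ^ (m - K) :=
  hG.gromov_iff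

end Pool.Agent.Results.MP_8a95ee_gt.RankExponents
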